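import Pool.Agent.helper80.EN.Spec

set_option autoImplicit false

namespace Pool.Agent.helper80.EN

open Subgroup

universe u

open scoped commutatorElement

theorem icom_mem_lowerCentralSeries {G : Type u} [Group G] (K : Subgroup G) (x a : G)
    (hx : x ∈ K) (ha : a ∈ K) (n : ℕ) : icom x a n ∈ K.lowerCentralSeries n := by
  induction n with
  | zero => exact hx
  | succ n ih =>
    have h1 : icom x a (n + 1) = ⁅(icom x a n)⁻¹, a⁻¹⁆ := by
      simp only [icom, com, commutatorElement_def]
      group
    rw [h1, Subgroup.lowerCentralSeries_succ]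
    exact commutator_mem_commutator (inv_mem ih) (inv_mem ha)

/-- HLE: elements of the Hirsch-Plotkin radical are left Engel. -/
theorem HLE (hHPR : HPR_stmt.{u}) (hBAS : BAS_stmt.{u}) : HLE_stmt.{u} := by
  classical
  intro G _ a ha g
  obtain ⟨hN, hL, -, -⟩ := hHPR G
  obtain ⟨-, -, hadd, -, -⟩ := hBAS G
  have hc : com g a ∈ HP G := by
    have h1 : com g a = (g⁻¹ * a⁻¹ * g⁻¹⁻¹) * a := by
      simp only [com]
      group
    rw [h1]
    exact mul_mem (hN.conj_mem _ (inv_mem ha) g⁻¹) ha
  have hK : closure (({com g a, a} : Finset G) : Set G) ≤ HP G := by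
    rw [closure_le]
    intro x hx
    have hx' : x = com g a ∨ x = a := by
      simpa using hx
    rcases hx' with rfl | rfl
    · exact hc
    · exact ha
  have hnil := hL _ ⟨{com g a, a}, rfl⟩ hK
  rw [isNilpotent_iff_lowerCentralSeries] at hnil
  obtain ⟨n, hn⟩ := hnil
  refine ⟨1 + n, ?_⟩
  rw [hadd]
  have hm := icom_mem_lowerCentralSeries _ (com g a) a
    (subset_closure (by simp : com g a ∈ (({com g a, a} : Finset G) : Set G)))
    (subset_closure (by simp : a ∈ (({com g a, a} : Finset G) : Set G))) n
  rw [hn, mem_bot] at hm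
  exact hm

end Pool.Agent.helper80.EN
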